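import Mathlib

set_option autoImplicit false

namespace Pool.Agent.Results.MP_2ce84e_co.No

variable {V : Type} [DecidableEq V]

/-- Alice wins with `n` moves left, the partial colouring `c`, and `true` if she is to move -/
def Win (G : SimpleGraph V) (k : ℕ) : ℕ → Bool → (V → Option (Fin k)) → Prop
  | 0, _, c => ∀ x a, ∃ y, (y = x ∨ G.Adj x y) ∧ c y = some a
  | n + 1, true, c => ∃ v, c v = none ∧ ∃ a, Win G k n false (Function.update c v (some a))
  | n + 1, false, c => ∀ v, c v = none → ∀ a, Win G k n true (Function.update c v (some a))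

/-- `gam G true` is the game domatic number, `gam G false` the delayed one -/
noncomputable def gam [Fintype V] (G : SimpleGraph V) (t : Bool) : ℕ :=
  sSup {k | 1 ≤ k ∧ Win G k (Fintype.card V) t fun _ => none}

/-- two triangles joined by an edge -/
def H : SimpleGraph (Fin 6) := .fromRel fun i j => i.1 / 3 = j.1 / 3 ∨ (i = 2 ∧ j = 3)

instance dec [Fintype V] (G : SimpleGraph V) [DecidableRel G.Adj] (k : ℕ) :
    ∀ n t c, Decidable (Win G k n t c)
  | 0, _, _ => by unfold Win; infer_instance
  | n + 1, true, _ => by unfold Win; have := dec G k n; infer_instance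
  | n + 1, false, _ => by unfold Win; have := dec G k n; infer_instance

instance : DecidableRel H.Adj := fun _ _ => by unfold H; infer_instance

instance {W : Type} (G : SimpleGraph V) (K : SimpleGraph W) [DecidableRel G.Adj]
    [DecidableRel K.Adj] : DecidableRel (G ⊕g K).Adj
  | .inl a, .inl b => inferInstanceAs (Decidable (G.Adj a b))
  | .inr a, .inr b => inferInstanceAs (Decidable (K.Adj a b))
  | .inl _, .inr _ => isFalse (by simp)
  | .inr _, .inl _ => isFalse (by simp)

theorem fin [Fintype V] (G : SimpleGraph V) (k : ℕ) (hk : 1 ≤ k) : ∀ n t c,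
    n ≤ (Finset.univ.filter fun v => c v = none).card → Win G k n t c → ∃ c, Win G k 0 t c := by
  intro n
  induction n with
  | zero => exact fun t c _ h => ⟨c, h⟩
  | succ n ih =>
    intro t c hn h
    have key : ∀ v a, n ≤ (Finset.univ.filter fun w => Function.update c v (some a) w = none).card := by
      intro v a
      refine le_trans ?_ (Finset.card_le_card (s := (Finset.univ.filter fun v => c v = none).erase v)
        fun w hw => by simp only [Finset.mem_erase] at hw; simpa [hw.1] using hw.2)
      have := Finset.pred_card_le_card_erase (s := Finset.univ.filter fun v => c v = none) (a := v)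
      omega
    cases t
    · obtain ⟨v, hv⟩ := Finset.card_pos.1 (lt_of_lt_of_le n.succ_pos hn)
      exact ih true _ (key v ⟨0, hk⟩) (h v (Finset.mem_filter.1 hv).2 _)
    · obtain ⟨v, -, a, h⟩ := h
      exact ih false _ (key v a) h

theorem val [Fintype V] (G : SimpleGraph V) [DecidableRel G.Adj] (t : Bool) (x : V) (d r : ℕ)
    (hd : (Finset.univ.filter fun y => y = x ∨ G.Adj x y).card = d) (h1 : 1 ≤ r)
    (h2 : Win G r (Fintype.card V) t fun _ => none)
    (h3 : r + 1 ≤ d → ¬ Win G (r + 1) (Fintype.card V) t fun _ => none) (h4 : d ≤ r + 1) :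
    gam G t = r := by
  refine IsGreatest.csSup_eq ⟨⟨h1, h2⟩, ?_⟩
  rintro k ⟨hk, h⟩
  obtain ⟨c, hc⟩ := fin G k hk _ _ _ (by simp) h
  choose f f1 f2 using hc x
  have := Finset.card_le_card_of_injOn f (s := Finset.univ)
    (t := Finset.univ.filter fun y => y = x ∨ G.Adj x y) (fun a _ => by simpa using f1 a)
    fun a _ b _ e => Option.some_injective _ (by rw [← f2, e, f2])
  rw [hd, Finset.card_univ, Fintype.card_fin] at this
  by_contra hh
  obtain rfl : k = r + 1 := by omega
  exact h3 this h

theorem pair [Fintype V] (G : SimpleGraph V) (k : ℕ) (m : V → V) (r : Fin k → Fin k)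
    (hm : ∀ v, m (m v) = v) (hm' : ∀ v, m v ≠ v) (hr : ∀ a, r (r a) = a) (p : Bool)
    (hf : ∀ c : V → Option (Fin k), (∀ v, c (m v) = (c v).map r) → (∀ v, c v ≠ none) →
      (Win G k 0 p c ↔ p = false)) : ∀ j c, (∀ v, c (m v) = (c v).map r) →
    (Finset.univ.filter fun v => c v = none).card = 2 * j → (Win G k (2 * j) p c ↔ p = false) := by
  intro j
  induction j with
  | zero => exact fun c h1 h2 => hf c h1 (by simpa using h2)
  | succ j ih =>
    intro c h1 h2
    have k1 : ∀ v a, c v = none → Function.update c v (some a) (m v) = none := fun v a h => by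
      rw [Function.update_of_ne (hm' v), h1, h]; rfl
    have k0 : ∀ (c : V → Option (Fin k)) v a, c v = none → (Finset.univ.filter fun w =>
        Function.update c v (some a) w = none).card + 1 =
        (Finset.univ.filter fun w => c w = none).card := fun c v a h => by
      rw [← Finset.card_erase_add_one (s := Finset.univ.filter fun w => c w = none) (a := v)
        (by simpa using h)]
      congr 2
      ext w
      by_cases e : w = v <;> simp [e]
    have k2 := fun v a (h : c v = none) =>
      ih (Function.update (Function.update c v (some a)) (m v) (some (r a))) (fun w => by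
        by_cases e : w = v
        · simp [e, (hm' v).symm]
        by_cases e' : w = m v
        · simp [e', hm, hr, (hm' v).symm]
        have e1 : m w ≠ v := fun h => e' (by rw [← h, hm])
        have e2 : m w ≠ m v := fun h => e (by rw [← hm w, h, hm])
        simp [e, e', e1, e2, h1]) (by
        have := k0 c v a h
        have := k0 _ _ (r a) (k1 v a h)
        omega)
    cases p
    · exact iff_of_true (fun v h a => ⟨m v, k1 v a h, r a, (k2 v a h).2 rfl⟩) rfl
    · exact iff_of_false (fun ⟨v, h, a, w⟩ => by
        simpa using (k2 v a h).1 (w (m v) (k1 v a h) (r a))) (by simp)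

def m : Fin 6 ⊕ Fin 2 → Fin 6 ⊕ Fin 2 := Sum.map ![1, 0, 3, 2, 5, 4] ![1, 0]

theorem w1 : Win (H ⊕g (⊤ : SimpleGraph (Fin 2))) 2 (2 * 4) false fun _ => none :=
  (pair _ 2 m Fin.rev (by decide) (by decide) (by decide) false (fun c h1 h2 =>
    iff_of_true (fun x a => by
      obtain ⟨b, hb⟩ := Option.ne_none_iff_exists'.1 (h2 x)
      by_cases e : b = a
      · exact ⟨x, Or.inl rfl, e ▸ hb⟩
      · refine ⟨m x, Or.inr (by clear hb; revert x; decide), ?_⟩
        rw [h1, hb]
        clear hb
        revert a b
        decide) rfl) 4 _ (fun _ => rfl) (by simp)).2 rfl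

theorem w2 : ¬ Win (H ⊕g (⊤ : SimpleGraph (Fin 2))) 2 (2 * 4) true fun _ => none := fun h => by
  simpa using (pair _ 2 m id (by decide) (by decide) (by decide) true (fun c h1 h2 =>
    iff_of_false (fun w => by
      have k : ∀ y, y = .inr 0 ∨ (H ⊕g (⊤ : SimpleGraph (Fin 2))).Adj (.inr 0) y →
          c y = c (.inr 0) := by
        have : ∀ y, y = .inr 0 ∨ (H ⊕g (⊤ : SimpleGraph (Fin 2))).Adj (.inr 0) y →
          y = .inr 0 ∨ y = m (.inr 0) := by decide
        intro y hy
        rcases this y hy with rfl | rfl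
        · rfl
        · simp [h1]
      obtain ⟨y, a1, a2⟩ := w (.inr 0) 0
      obtain ⟨z, b1, b2⟩ := w (.inr 0) 1
      rw [k y a1, ← k z b1, b2] at a2
      simp at a2) (by simp)) 4 _ (fun _ => rfl) (by simp)).1 h

theorem result :
    (∀ t, gam (⊤ : SimpleGraph (Fin 3)) t = gam H t) ∧
      ∀ t, gam ((⊤ : SimpleGraph (Fin 3)) ⊕g (⊤ : SimpleGraph (Fin 2))) t ≠
        gam (H ⊕g (⊤ : SimpleGraph (Fin 2))) t := by
  refine ⟨fun t => ?_, fun t => ?_⟩ <;> cases t
  · rw [val _ _ 0 3 2, val _ _ 0 3 2] <;> decide +kernel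
  · rw [val _ _ 0 3 2, val _ _ 0 3 2] <;> decide +kernel
  · rw [val _ _ (.inr 0) 2 1, val _ _ (.inr 0) 2 2 _ _ w1] <;> decide +kernel
  · rw [val _ _ (.inr 0) 2 2, val _ _ (.inr 0) 2 1 _ _ _ fun _ => w2] <;> decide +kernel

end Pool.Agent.Results.MP_2ce84e_co.No
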